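import Pool.Agent.H818.CS.UCDefs

/-!
# Bridged graphs, quadric graphs, property A of discrete metric spaces
-/

set_option autoImplicit false

namespace Pool.Agent.H818.FG

open Pool.Agent.H818.CS

universe v w

/-- The graph `G` is bridged: it is connected and has no isometric cycle of length at least four,
i.e. for `n ≥ 4` there is no map `c` from `Fin n` to the vertices such that the distance of `c i`
and `c j` in `G` is the distance of `i` and `j` in the cycle of length `n`. The bridged graphs are
the 1-skeleta of the systolic simplicial complexes (Chepoi). -/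
def Bridged {V : Type v} (G : SimpleGraph V) : Prop :=
  G.Connected ∧ ∀ n : ℕ, 4 ≤ n → ∀ c : Fin n → V, ¬ ∀ i j : Fin n,
    G.dist (c i) (c j) =
      min ((i : ℕ) - (j : ℕ) + ((j : ℕ) - (i : ℕ))) (n - ((i : ℕ) - (j : ℕ) + ((j : ℕ) - (i : ℕ))))

/-- The cliques of `G` have at most `ω` elements: the flag complex of `G` has dimension less than
`ω`. -/
def CliquesLE {V : Type v} (G : SimpleGraph V) (ω : ℕ) : Prop :=
  ∀ s : Finset V, G.IsClique (s : Set V) → s.card ≤ ω

/-- The graph `G` is quadric: it is connected, bipartite (the ends of an edge have different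
distances from every vertex `z`), satisfies the quadrangle condition (two different neighbours
`a`, `b` of `v` that are closer to `z` than `v` have a common neighbour that is closer to `z` than
`a`), and every closed walk of length six without repetitions at distance two has a diagonal
between opposite vertices. These graphs are the 1-skeleta of the quadric complexes (Hoda), i.e. the
connected graphs all of whose isometric cycles have length four (Bandelt's hereditary modular
graphs). -/
structure Quadric {V : Type v} (G : SimpleGraph V) : Prop where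
  connected : G.Connected
  bipartite : ∀ z u v, G.Adj u v → G.dist z u ≠ G.dist z v
  quadrangle : ∀ z v a b, G.Adj v a → G.Adj v b → G.dist z a + 1 = G.dist z v →
    G.dist z b + 1 = G.dist z v → a ≠ b → ∃ w, G.Adj w a ∧ G.Adj w b ∧ G.dist z w + 1 = G.dist z a
  hexagon : ∀ x0 x1 x2 x3 x4 x5, G.Adj x0 x1 → G.Adj x1 x2 → G.Adj x2 x3 → G.Adj x3 x4 →
    G.Adj x4 x5 → G.Adj x5 x0 → x0 ≠ x2 → x1 ≠ x3 → x2 ≠ x4 → x3 ≠ x5 → x4 ≠ x0 → x5 ≠ x1 →
    G.Adj x0 x3 ∨ G.Adj x1 x4 ∨ G.Adj x2 x5

/-- Two different vertices of `G` have at most `N` common neighbours. -/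
def CommonLE {V : Type v} (G : SimpleGraph V) (N : ℕ) : Prop :=
  ∀ u v, u ≠ v → ∀ T : Finset V, (∀ t ∈ T, G.Adj u t ∧ G.Adj v t) → T.card ≤ N

/-- The distance `d` on the set `Y` has bounded geometry: the number of elements of the balls of
radius `r` is bounded by a function of `r`. -/
def BoundedGeometry {Y : Type w} (d : Y → Y → ℕ) : Prop :=
  ∀ r : ℕ, ∃ N : ℕ, ∀ (y : Y) (T : Finset Y), (∀ t ∈ T, d y t ≤ r) → T.card ≤ N

/-- Property A of the set `Y` with the distance `d`. -/
def DistPropertyA {Y : Type w} (d : Y → Y → ℕ) : Prop :=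
  ∀ (R : ℕ) (ε : ℝ), 0 < ε → ∃ (S : ℕ) (b : Y → Y →₀ ℝ), (∀ y, Prob (b y)) ∧
    (∀ y z, b y z ≠ 0 → d y z ≤ S) ∧ ∀ y z, d y z ≤ R → norm1 (b y - b z) ≤ ε

end Pool.Agent.H818.FG
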