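import Pool.Graph.R_pool_sql_team_seeded_620a6dc7.Helper556_sys.Core
import Pool.Agent.H818.CS.Chain

/-!
# Graphs with finite intervals and bounded horizontal sets: the coarse stabilizers
-/

set_option autoImplicit false

namespace Pool.Agent.H818.FG

open SimpleGraph Pool.Agent.Helper556_sys Pool.Agent.H818.CS
open Pool.Agent.N313.EX (IsProb n1 n1_eq_sum isProb_iff)

universe u v w

/-- The uniform probability measure on a finite set. -/
noncomputable def um {Y : Type v} (P : Finset Y) : Y →₀ ℝ :=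
  ∑ p ∈ P, Finsupp.single p ((P.card : ℝ)⁻¹)

theorem um_prob {Y : Type v} {P : Finset Y} (hP : P.Nonempty) : IsProb (um P) := by
  classical
  have h1 : (0 : ℝ) < P.card := by exact_mod_cast hP.card_pos
  refine (isProb_iff _).2 ⟨fun x => ?_, ?_⟩
  · unfold um
    rw [Finsupp.finsetSum_apply]
    refine Finset.sum_nonneg fun i _ => ?_
    rw [Finsupp.single_apply]
    split_ifs
    · positivity
    · exact le_rfl
  · unfold um
    rw [map_sum]
    simp only [Finsupp.linearCombination_single, smul_eq_mul, mul_one, Finset.sum_const,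
      nsmul_eq_mul]
    field_simp

theorem um_support {Y : Type v} {P : Finset Y} {y : Y} (hy : y ∈ (um P).support) : y ∈ P := by
  classical
  unfold um at hy
  rw [Finsupp.mem_support_iff, Finsupp.finsetSum_apply] at hy
  obtain ⟨p, hp, h⟩ := Finset.exists_ne_zero_of_sum_ne_zero hy
  rw [Finsupp.single_apply] at h
  split_ifs at h with h1
  · rw [← h1]
    exact hp
  · exact absurd rfl h

/-- Telescoping: a decreasing sequence of natural numbers changes rarely. -/
theorem count_bad {ψ : ℕ → ℕ} (hψ : ∀ i, ψ (i + 1) ≤ ψ i) (M : ℕ) :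
    ((Finset.range M).filter fun i => ψ i ≠ ψ (i + 3)).card + (ψ M + ψ (M + 1) + ψ (M + 2)) ≤
      ψ 0 + ψ 1 + ψ 2 := by
  classical
  induction M with
  | zero => simp
  | succ M ih =>
    rw [Finset.range_add_one, Finset.filter_insert]
    have h1 := hψ M
    have h2 := hψ (M + 1)
    have h3 := hψ (M + 2)
    have e : M + 1 + 1 = M + 2 := rfl
    have e' : M + 1 + 2 = M + 3 := rfl
    have e'' : M + 2 + 1 = M + 3 := rfl
    rw [e] at h2 ⊢
    rw [e']
    rw [e''] at h3
    split_ifs with h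
    · rw [Finset.card_insert_of_notMem (by simp)]
      omega
    · omega

section

variable {Γ : Type u} [Group Γ] {V : Type v} [MulAction Γ V] {G : SimpleGraph V}

theorem dist_act (hc : G.Connected) (hact : ∀ (g : Γ) (x y : V), G.Adj x y → G.Adj (g • x) (g • y))
    (g : Γ) (x y : V) : G.dist (g • x) (g • y) = G.dist x y := by
  have h1 : ∀ (g : Γ) (x y : V), G.dist (g • x) (g • y) ≤ G.dist x y := fun g x y =>
    (Pool.Agent.Q255.Bridged.dist_weak (H := G) (F := G) (fun x => g • x)
      (fun x y h => Or.inr (hact g x y h)) (hc.preconnected x y)).2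
  refine le_antisymm (h1 g x y) ?_
  have h2 := h1 g⁻¹ (g • x) (g • y)
  rwa [inv_smul_smul, inv_smul_smul] at h2

/-- The coarse stabilizers. -/
theorem loc (hG : G.Connected)
    (hI : ∀ x y : V, {c | G.dist x c + G.dist c y = G.dist x y}.Finite)
    (hH : ∀ d : ℕ, ∃ N : ℕ, ∀ (o : V) (P : Finset V), (∀ p ∈ P, G.dist o p = d) →
      (∀ p ∈ P, ∀ q ∈ P, ∀ c, G.dist p c + G.dist c q = G.dist p q → d ≤ G.dist o c) →
      P.card ≤ N)
    (hact : ∀ (g : Γ) (x y : V), G.Adj x y → G.Adj (g • x) (g • y))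
    (o : V) (r : ℕ) (F : Finset Γ) (ε : ℝ) (hε : 0 < ε) :
    ∃ (T : Finset V) (ν : Γ → V →₀ ℝ), (∀ g, IsProb (ν g)) ∧
      (∀ g, ∀ k ∈ (ν g).support, g⁻¹ • k ∈ T) ∧
      ∀ g, G.dist o (g • o) ≤ r → ∀ f ∈ F, n1 (ν g - ν (g * f)) ≤ ε := by
  classical
  choose W hW using hH
  obtain ⟨N, hN⟩ : ∃ N : ℕ, ∀ d ≤ r, W d ≤ N := by
    refine ⟨∑ d ∈ Finset.range (r + 1), W d, fun d hd => ?_⟩
    exact Finset.single_le_sum (f := W) (fun _ _ => Nat.zero_le _)
      (Finset.mem_range.2 (by omega))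
  have hdist := dist_act (Γ := Γ) hG hact
  let Iv : V → V → Finset V := fun x y => (hI x y).toFinset
  have hIv : ∀ x y c, c ∈ Iv x y ↔ G.dist x c + G.dist c y = G.dist x y := fun x y c => by
    simp only [Iv, Set.Finite.mem_toFinset]
    rfl
  -- the nested finite sets
  let st : Finset V → Finset V := fun A => A ∪ (F ×ˢ A).image (fun p => p.1 • p.2) ∪
    (F ×ˢ A).image (fun p => p.1⁻¹ • p.2) ∪ (A ×ˢ A).biUnion (fun p => Iv p.1 p.2)
  let E : ℕ → Finset V := fun n => st^[n] {o}
  have hE1 : ∀ n, E (n + 1) = st (E n) := fun n => by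
    simp only [E, Function.iterate_succ_apply']
  have hEs : ∀ n, E n ⊆ E (n + 1) := by
    intro n x hx
    rw [hE1]
    simp only [st, Finset.mem_union]
    exact Or.inl (Or.inl (Or.inl hx))
  have hEf : ∀ n, ∀ f ∈ F, ∀ x ∈ E n, f • x ∈ E (n + 1) := by
    intro n f hf x hx
    rw [hE1]
    simp only [st, Finset.mem_union]
    exact Or.inl (Or.inl (Or.inr (Finset.mem_image.2 ⟨(f, x), Finset.mem_product.2 ⟨hf, hx⟩, rfl⟩)))
  have hEi : ∀ n, ∀ f ∈ F, ∀ x ∈ E n, f⁻¹ • x ∈ E (n + 1) := by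
    intro n f hf x hx
    rw [hE1]
    simp only [st, Finset.mem_union]
    exact Or.inl (Or.inr (Finset.mem_image.2 ⟨(f, x), Finset.mem_product.2 ⟨hf, hx⟩, rfl⟩))
  have hEm : ∀ n, ∀ x ∈ E n, ∀ y ∈ E n, ∀ c, G.dist x c + G.dist c y = G.dist x y →
      c ∈ E (n + 1) := by
    intro n x hx y hy c hc
    rw [hE1]
    simp only [st, Finset.mem_union]
    exact Or.inr (Finset.mem_biUnion.2 ⟨(x, y), Finset.mem_product.2 ⟨hx, hy⟩, (hIv x y c).2 hc⟩)
  have ho : ∀ n, o ∈ E n := by
    intro n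
    induction n with
    | zero => simp [E]
    | succ n ih => exact hEs n ih
  have hne : ∀ n, (E n).Nonempty := fun n => ⟨o, ho n⟩
  have hmono : ∀ a b, a ≤ b → E a ⊆ E b := fun a b hab => by
    induction b, hab using Nat.le_induction with
    | base => exact subset_rfl
    | succ n _ ih => exact ih.trans (hEs n)
  -- the minima
  let D : Γ → ℕ → ℕ := fun g i => (E i).inf' (hne i) fun x => G.dist o (g • x)
  have hDp : ∀ g i, ∃ x ∈ E i, G.dist o (g • x) = D g i := by
    intro g i
    obtain ⟨x, hx, h⟩ := Finset.exists_mem_eq_inf' (hne i) fun x => G.dist o (g • x)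
    exact ⟨x, hx, h.symm⟩
  have hDl : ∀ g i, ∀ x ∈ E i, D g i ≤ G.dist o (g • x) := fun g i x hx =>
    Finset.inf'_le (fun x => G.dist o (g • x)) hx
  have hDa : ∀ g i, D g (i + 1) ≤ D g i := by
    intro g i
    obtain ⟨x, hx, h⟩ := hDp g i
    rw [← h]
    exact hDl g _ x (hEs i hx)
  have hDo : ∀ g i, D g i ≤ G.dist o (g • o) := fun g i => hDl g i o (ho i)
  have hDf : ∀ g, ∀ f ∈ F, ∀ i, D (g * f) (i + 1) ≤ D g i := by
    intro g f hf i
    obtain ⟨x, hx, h⟩ := hDp g i
    rw [← h]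
    have := hDl (g * f) (i + 1) (f⁻¹ • x) (hEi i f hf x hx)
    rwa [mul_smul, smul_inv_smul] at this
  have hDf' : ∀ g, ∀ f ∈ F, ∀ i, D g (i + 1) ≤ D (g * f) i := by
    intro g f hf i
    obtain ⟨x, hx, h⟩ := hDp (g * f) i
    rw [← h]
    have := hDl g (i + 1) (f • x) (hEf i f hf x hx)
    rwa [← mul_smul] at this
  -- the sets of nearest points
  let P : Γ → ℕ → Finset V := fun g i =>
    ((E i).filter fun x => G.dist o (g • x) = D g i).image fun x => g • x
  have hP : ∀ g i y, y ∈ P g i ↔ g⁻¹ • y ∈ E i ∧ G.dist o y = D g i := by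
    intro g i y
    simp only [P, Finset.mem_image, Finset.mem_filter]
    constructor
    · rintro ⟨x, ⟨h1, h2⟩, rfl⟩
      rw [inv_smul_smul]
      exact ⟨h1, h2⟩
    · rintro ⟨h1, h2⟩
      exact ⟨g⁻¹ • y, ⟨h1, by rw [smul_inv_smul]; exact h2⟩, smul_inv_smul g y⟩
  have hPne : ∀ g i, (P g i).Nonempty := by
    intro g i
    obtain ⟨x, hx, h⟩ := hDp g i
    exact ⟨g • x, (hP g i _).2 ⟨by rwa [inv_smul_smul], h⟩⟩
  -- the count
  have hcard : ∀ g i, D g i = D g (i + 1) → (P g i).card ≤ W (D g i) := by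
    intro g i hi
    refine hW (D g i) o (P g i) (fun p hp => ((hP g i p).1 hp).2) ?_
    intro p hp q hq c hc
    have h1 := (hP g i p).1 hp
    have h2 := (hP g i q).1 hq
    have h3 : g⁻¹ • c ∈ E (i + 1) := by
      refine hEm i _ h1.1 _ h2.1 _ ?_
      rw [hdist, hdist, hdist]
      exact hc
    have h4 := hDl g (i + 1) _ h3
    rw [smul_inv_smul] at h4
    omega
  let ψ : Γ → ℕ → ℕ := fun g i => (N + 1) * D g i + (N - min (P g i).card N)
  have hψ : ∀ g, ∀ i, ψ g (i + 1) ≤ ψ g i := by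
    intro g i
    simp only [ψ]
    rcases Nat.eq_or_lt_of_le (hDa g i) with h | h
    · have h1 : P g i ⊆ P g (i + 1) := by
        intro y hy
        have h2 := (hP g i y).1 hy
        exact (hP g (i + 1) y).2 ⟨hEs i h2.1, by rw [h]; exact h2.2⟩
      have h2 := Finset.card_le_card h1
      rw [h]
      omega
    · have h1 : (N + 1) * (D g (i + 1) + 1) ≤ (N + 1) * D g i := Nat.mul_le_mul_left _ h
      rw [Nat.mul_add] at h1
      omega
  have hψ0 : ∀ g i, G.dist o (g • o) ≤ r → ψ g i ≤ (N + 1) * r + N := by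
    intro g i hg
    have h1 : (N + 1) * D g i ≤ (N + 1) * r := Nat.mul_le_mul_left _ ((hDo g i).trans hg)
    simp only [ψ]
    omega
  have hgood : ∀ g, G.dist o (g • o) ≤ r → ∀ f ∈ F, ∀ i, ψ g i = ψ g (i + 3) →
      P g (i + 1) = P (g * f) (i + 1) := by
    intro g hg f hf i hi
    have a0 := hDa g i
    have a1 := hDa g (i + 1)
    have a2 := hDa g (i + 2)
    have e1 : i + 1 + 1 = i + 2 := rfl
    have e2 : i + 2 + 1 = i + 3 := rfl
    rw [e1] at a1
    rw [e2] at a2
    -- the distances agree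
    have hD3 : D g i = D g (i + 3) := by
      by_contra hne'
      have h1 : (N + 1) * (D g (i + 3) + 1) ≤ (N + 1) * D g i := Nat.mul_le_mul_left _ (by omega)
      rw [Nat.mul_add] at h1
      simp only [ψ] at hi
      omega
    have hcd : (P g i).card = (P g (i + 2)).card := by
      have h0 : D g i ≤ r := (hDo g i).trans hg
      have h1 := hcard g i (by omega)
      have h2 := hcard g (i + 2) (by rw [e2]; omega)
      have h3 : W (D g i) ≤ N := hN _ h0
      have h4 : W (D g (i + 2)) ≤ N := hN _ (by omega)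
      have h5 := hψ g i
      have h6 := hψ g (i + 1)
      have h7 := hψ g (i + 2)
      rw [e1] at h6
      rw [e2] at h7
      have h8 : ψ g i = ψ g (i + 2) := by omega
      simp only [ψ] at h8
      have h9 : D g i = D g (i + 2) := by omega
      rw [h9] at h8
      omega
    have hs1 : P g i ⊆ P g (i + 1) := by
      intro y hy
      have h2 := (hP g i y).1 hy
      exact (hP g (i + 1) y).2 ⟨hEs i h2.1, by omega⟩
    have hs2 : P g (i + 1) ⊆ P g (i + 2) := by
      intro y hy
      have h2 := (hP g (i + 1) y).1 hy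
      exact (hP g (i + 2) y).2 ⟨hEs (i + 1) h2.1, by omega⟩
    have b1 := hDf g f hf i
    have b2 := hDf' g f hf (i + 1)
    rw [e1] at b2
    have hs3 : P g i ⊆ P (g * f) (i + 1) := by
      intro y hy
      have h2 := (hP g i y).1 hy
      refine (hP (g * f) (i + 1) y).2 ⟨?_, by omega⟩
      rw [mul_inv_rev, mul_smul]
      exact hEi i f hf _ h2.1
    have hs4 : P (g * f) (i + 1) ⊆ P g (i + 2) := by
      intro y hy
      have h2 := (hP (g * f) (i + 1) y).1 hy
      refine (hP g (i + 2) y).2 ⟨?_, by omega⟩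
      have h3 := hEf (i + 1) f hf _ h2.1
      rw [mul_inv_rev, mul_smul, smul_inv_smul] at h3
      exact h3
    have h5 := Finset.eq_of_subset_of_card_le (hs1.trans hs2) hcd.ge
    rw [← h5] at hs2 hs4
    exact (hs2.antisymm hs1).trans (hs3.antisymm hs4)
  -- the number of measures
  set C : ℕ := 3 * ((N + 1) * r + N) with hC
  set M : ℕ := ⌈2 * (C : ℝ) / ε⌉₊ + 1 with hM
  have hMpos : 0 < M := by omega
  have hMr : (0 : ℝ) < M := by exact_mod_cast hMpos
  have hMge : 2 * (C : ℝ) / ε ≤ M := by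
    rw [hM]
    push_cast
    exact (Nat.le_ceil _).trans (by linarith)
  refine ⟨E M, fun g => av M fun i => um (P g (i + 1)),
    fun g => av_prob hMpos _ fun i => um_prob (hPne g _), ?_, ?_⟩
  · intro g k hk
    obtain ⟨i, hi, hk⟩ := av_support _ hk
    exact hmono (i + 1) M (by omega) ((hP g (i + 1) k).1 (um_support hk)).1
  · intro g hg f hf
    have h1 := av_close hMpos (fun i => um (P g (i + 1))) (fun i => um (P (g * f) (i + 1)))
      (fun i => um_prob (hPne g _)) (fun i => um_prob (hPne _ _)) (ε := 0) (B := C) le_rfl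
      (fun i => ψ g i ≠ ψ g (i + 3)) ?_ ?_
    · refine h1.trans ?_
      rw [zero_add, div_le_iff₀ hMr]
      rw [div_le_iff₀ hε] at hMge
      linarith
    · intro i _ hbad
      have h2 := hgood g hg f hf i (not_not.1 hbad)
      beta_reduce
      rw [h2, sub_self, Pool.Agent.N313.EX.n1_zero]
    · have h2 := count_bad (hψ g) M
      have h3 := hψ0 g 0 hg
      have h4 := hψ0 g 1 hg
      have h5 := hψ0 g 2 hg
      have h6 : ((Finset.range M).filter fun i => ψ g i ≠ ψ g (i + 3)).card ≤ C := by omega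
      exact_mod_cast h6

end

end Pool.Agent.H818.FG
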