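import Pool.Agent.H818.FG.Defs
import Pool.Agent.H818.FG.Loc
import Pool.Agent.H818.SY.LemH
import Pool.Agent.H818.QC.Cnt
import Pool.Agent.H818.QC.Mach
import Pool.Graph.R_pool_sql_team_seeded_620a6dc7.Helper556_sys.Final
import Pool.Agent.H818.CS.CE
import Pool.Agent.H818.Bd.Main

/-!
# Groups acting on bridged and quadric graphs
-/

set_option autoImplicit false

namespace Pool.Agent.H818.FG

open SimpleGraph Pool.Agent.Helper556_sys Pool.Agent.H818.CS Pool.Agent.H169Q
open Pool.Agent.N313.EX (IsProb n1 n1_mapDomain_le)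
open Pool.Agent.N506.EX (IsExact CoarselyEmbeds)

universe u v w t

/-- Graphs with flows, finite intervals and bounded horizontal sets. -/
structure Tame {V : Type v} (G : SimpleGraph V) : Prop where
  conn : G.Connected
  fl : ∃ C : ℕ, 1 ≤ C ∧ ∀ (o : V) (R : ℕ), ∃ (s : ℕ) (a b : V → V), Flows G o C R s a b
  int : ∀ x y : V, {c | G.dist x c + G.dist c y = G.dist x y}.Finite
  hor : ∀ d : ℕ, ∃ N : ℕ, ∀ (o : V) (P : Finset V), (∀ p ∈ P, G.dist o p = d) →
      (∀ p ∈ P, ∀ q ∈ P, ∀ c, G.dist p c + G.dist c q = G.dist p q → d ≤ G.dist o c) →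
      P.card ≤ N

theorem Bridged.br {V : Type v} {G : SimpleGraph V} (h : Bridged G) : Br G :=
  br_of_noIso h.1 (noIso_of_fin h.2)

theorem CliquesLE.dist {V : Type v} {G : SimpleGraph V} {ω : ℕ} (h : CliquesLE G ω) (hG : Br G) :
    ∀ T : Finset V, (∀ s ∈ T, ∀ t ∈ T, G.dist s t ≤ 1) → T.card ≤ ω := by
  intro T hT
  refine h T fun a ha b hb hab => ?_
  rcases hG.of_le_one (hT a ha b hb) with h1 | h1
  · exact absurd h1 hab
  · exact h1

theorem Bridged.brL {V : Type v} {G : SimpleGraph V} (h : Bridged G) {ω : ℕ}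
    (hω : CliquesLE G ω) : SY.BrL G where
  toBr := h.br
  fin := SY.lower_finite h.br (hω.dist h.br)

/-- Bridged graphs with finite clique number. -/
theorem Bridged.tame {V : Type v} {G : SimpleGraph V} (h : Bridged G) {ω : ℕ}
    (hω : CliquesLE G ω) : Tame G where
  conn := h.1
  fl := by
    have hG := h.brL hω
    have hω' := hω.dist h.br
    obtain ⟨o⟩ := h.1.nonempty
    refine ⟨ω, ?_, fun o R => ⟨4, al G o, be G o, hG.al_lip o, hG.be_lip o, fun v => ?_,
      fun v => ?_, fun p q hpq => ?_, fun p q hpq => ?_, fun k Q h1 h2 h3 h4 => ?_⟩⟩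
    · have := hω' {o} (by
        intro s hs t ht
        rw [Finset.mem_singleton] at hs ht
        rw [hs, ht, SimpleGraph.dist_self]
        omega)
      simpa using this
    · show G.dist v (phi G o (phi G o v)) ≤ 4
      have h3 := hG.dist_phi o v
      have h4 := hG.dist_phi o (phi G o v)
      have h6 := hG.tri v (phi G o v) (phi G o (phi G o v))
      omega
    · show G.dist v (fth G o (phi G o v)) ≤ 4
      have h3 := hG.dist_phi o v
      have h4 := dist_fth hG.toBr o (phi G o v)
      have h6 := hG.tri v (phi G o v) (fth G o (phi G o v))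
      omega
    · show G.dist o (phi G o (phi G o p)) = G.dist o (phi G o (phi G o q))
      rw [hG.phi_lev, hG.phi_lev, hG.phi_lev, hG.phi_lev, hpq]
    · show G.dist o (fth G o (phi G o p)) = G.dist o (fth G o (phi G o q))
      rw [hG.fth_lev, hG.phi_lev, hG.fth_lev, hG.phi_lev, hpq]
    · exact hG.card_le Q h1 h2 h3 h4 hω'
  int := fun x y => SY.interval_finite h.br (SY.lower_finite h.br (hω.dist h.br)) _ x y rfl
  hor := fun d => ⟨ω ^ d, fun o P h1 h2 => SY.card_horiz h.br (hω.dist h.br) d o P h1 h2⟩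

theorem Quadric.qd {V : Type v} {G : SimpleGraph V} (h : Quadric G) : Qd G where
  conn := h.connected
  bip := h.bipartite
  qc := h.quadrangle
  c6 := h.hexagon

theorem interval_finite {V : Type v} {G : SimpleGraph V} (hG : G.Connected)
    (hfin : ∀ o v, {z | G.Adj z v ∧ G.dist o z + 1 = G.dist o v}.Finite) :
    ∀ (n : ℕ) (x y : V), G.dist x y = n →
      {c | G.dist x c + G.dist c y = G.dist x y}.Finite := by
  intro n
  induction n with
  | zero =>
    intro x y h
    refine (Set.finite_singleton x).subset fun c hc => ?_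
    have hc' : G.dist x c + G.dist c y = G.dist x y := hc
    have h1 : G.dist x c = 0 := by omega
    exact (hG.dist_eq_zero_iff.1 h1).symm
  | succ n ih =>
    intro x y h
    have h1 : ({y} ∪ ⋃ z ∈ {z | G.Adj z y ∧ G.dist x z + 1 = G.dist x y},
        {c | G.dist x c + G.dist c z = G.dist x z}).Finite := by
      refine (Set.finite_singleton y).union ((hfin x y).biUnion fun z hz => ?_)
      have hz' : G.Adj z y ∧ G.dist x z + 1 = G.dist x y := hz
      exact ih x z (by omega)
    refine h1.subset fun c hc => ?_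
    have hc' : G.dist x c + G.dist c y = G.dist x y := hc
    rcases Nat.eq_zero_or_pos (G.dist c y) with h2 | h2
    · left
      exact hG.dist_eq_zero_iff.1 h2
    · right
      obtain ⟨z, hz1, hz2⟩ := Pool.Agent.Q255.Bridged.exists_parent (G := G) (z := c) (v := y)
        (k := G.dist c y - 1) (by omega)
      have h3 : G.dist z y = 1 := dist_eq_one_iff_adj.2 hz1
      have h4 := hG.dist_triangle (u := x) (v := c) (w := z)
      have h5 := hG.dist_triangle (u := x) (v := z) (w := y)
      rw [Set.mem_iUnion₂]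
      exact ⟨z, ⟨hz1, by omega⟩, show _ = _ by omega⟩

/-- Quadric graphs with bounded numbers of common neighbours. -/
theorem Quadric.tame {V : Type v} {G : SimpleGraph V} (h : Quadric G) {N : ℕ}
    (hN : CommonLE G N) : Tame G where
  conn := h.connected
  fl := ⟨N + 1, by omega, fun o R =>
    (QC.QdL.mk h.qd (QC.lower_finite h.qd hN)).flows hN o R⟩
  int := fun x y => interval_finite h.connected (QC.lower_finite h.qd hN) _ x y rfl
  hor := fun d => ⟨1, fun o P h1 h2 => by
    rw [Finset.card_le_one]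
    intro p hp q hq
    by_contra hne
    have h3 := h.connected.pos_dist_of_ne hne
    have h4 := h1 p hp
    have h5 := h1 q hq
    obtain ⟨u, hu1, hu2, hu3⟩ := h.qd.down _ o p q rfl (by omega)
    have h6 := h2 p hp q hq u (by
      rw [dist_eq_one_iff_adj.2 hu1]
      omega)
    omega⟩

/-- The subspaces of bounded geometry of a tame graph have property A. -/
theorem Tame.subspace_propertyA {V : Type v} {G : SimpleGraph V} (h : Tame G)
    {Y : Type w} (f : Y → V)
    (hY : BoundedGeometry fun y z => G.dist (f y) (f z)) :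
    DistPropertyA fun y z => G.dist (f y) (f z) := by
  classical
  intro R ε hε
  have hG := h.conn
  obtain ⟨o⟩ := hG.nonempty
  obtain ⟨C, hC, hfl⟩ := h.fl
  obtain ⟨N, hN⟩ := hY R
  -- the neighbours
  have hfin : ∀ y : Y, {z | G.dist (f y) (f z) ≤ R}.Finite := by
    intro y
    by_contra hinf
    obtain ⟨T, hT1, hT2⟩ := Set.Infinite.exists_subset_card_eq hinf (N + 1)
    have := hN y T fun t ht => hT1 ht
    omega
  let Nb : Y → Finset Y := fun y => (hfin y).toFinset
  have hNb : ∀ y z, z ∈ Nb y ↔ G.dist (f y) (f z) ≤ R := fun y z => by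
    simp only [Nb, Set.Finite.mem_toFinset]
    rfl
  have hNc : ∀ y, (Nb y).card ≤ N := fun y => hN y _ fun t ht => (hNb y t).1 ht
  let st : Finset Y → Finset Y := fun A => A.biUnion Nb
  let Z : Y → ℕ → Finset Y := fun y k => st^[k] {y}
  have hZ0 : ∀ y, Z y 0 = {y} := fun y => rfl
  have hZ1 : ∀ y k, Z y (k + 1) = (Z y k).biUnion Nb := fun y k => by
    simp only [Z, Function.iterate_succ_apply', st]
  have hself : ∀ y, y ∈ Nb y := fun y => (hNb y y).2 (by rw [SimpleGraph.dist_self]; omega)
  have hZm : ∀ y k, Z y k ⊆ Z y (k + 1) := by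
    intro y k z hz
    rw [hZ1]
    exact Finset.mem_biUnion.2 ⟨z, hz, hself z⟩
  have hZc : ∀ y k, (Z y k).card ≤ N ^ k := by
    intro y k
    induction k with
    | zero => rw [hZ0]; simp
    | succ k ih =>
      rw [hZ1]
      calc ((Z y k).biUnion Nb).card ≤ (Z y k).card * N :=
            Finset.card_biUnion_le_card_mul _ _ _ fun z _ => hNc z
        _ ≤ N ^ k * N := Nat.mul_le_mul_right _ ih
        _ = N ^ (k + 1) := (pow_succ _ _).symm
  have hZd : ∀ y k, ∀ z ∈ Z y k, G.dist (f y) (f z) ≤ R * k := by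
    intro y k
    induction k with
    | zero =>
      intro z hz
      rw [hZ0, Finset.mem_singleton] at hz
      rw [hz, SimpleGraph.dist_self]
      omega
    | succ k ih =>
      intro z hz
      rw [hZ1] at hz
      obtain ⟨x, hx, hz⟩ := Finset.mem_biUnion.1 hz
      have h1 := ih x hx
      have h2 := (hNb x z).1 hz
      have h3 := hG.dist_triangle (u := f y) (v := f x) (w := f z)
      rw [Nat.mul_add]
      omega
  have hZn : ∀ y y', G.dist (f y) (f y') ≤ R → ∀ k, Z y k ⊆ Z y' (k + 1) := by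
    intro y y' hyy k
    induction k with
    | zero =>
      intro z hz
      rw [hZ0, Finset.mem_singleton] at hz
      rw [hZ1, hZ0, hz]
      refine Finset.mem_biUnion.2 ⟨y', Finset.mem_singleton_self _, (hNb y' y).2 ?_⟩
      rw [SimpleGraph.dist_comm]
      exact hyy
    | succ k ih =>
      intro z hz
      rw [hZ1] at hz
      obtain ⟨x, hx, hz⟩ := Finset.mem_biUnion.1 hz
      rw [hZ1 y' (k + 1)]
      exact Finset.mem_biUnion.2 ⟨x, ih hx, hz⟩
  obtain ⟨S, b, h1, h2, h3⟩ := QC.almost_inv hG hC o (hfl o) f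
    (fun y k => (Z y k).image f) R (fun k => N ^ k)
    (fun y => Finset.mem_image_of_mem f (by rw [hZ0]; exact Finset.mem_singleton_self y))
    (fun y k => Finset.image_subset_image (hZm y k))
    (fun y k p hp => by
      obtain ⟨z, hz, rfl⟩ := Finset.mem_image.1 hp
      exact hZd y k z hz)
    (fun y k => Finset.card_image_le.trans (hZc y k)) hε
  -- push the measures to `Y`
  rcases isEmpty_or_nonempty Y with hE | hE
  · exact ⟨0, fun y => isEmptyElim y, fun y => isEmptyElim y, fun y => isEmptyElim y,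
      fun y => isEmptyElim y⟩
  let π : V → Y := fun v => if hv : ∃ y, G.dist (f y) v ≤ S then hv.choose else
    Classical.arbitrary Y
  have hπ : ∀ y v, G.dist (f y) v ≤ S → G.dist (f (π v)) v ≤ S := by
    intro y v hy
    have hex : ∃ y, G.dist (f y) v ≤ S := ⟨y, hy⟩
    simp only [π, dif_pos hex]
    exact hex.choose_spec
  refine ⟨2 * S, fun y => (b y).mapDomain π, fun y => (h1 y).mapDomain π, fun y z hz => ?_,
    fun y z hyz => ?_⟩
  · have hz' : z ∈ ((b y).mapDomain π).support := Finsupp.mem_support_iff.2 hz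
    obtain ⟨v, hv, rfl⟩ := Finset.mem_image.1 (Finsupp.mapDomain_support hz')
    have h4 := h2 y v hv
    have h5 := hπ y v h4
    have h6 := hG.dist_triangle (u := f y) (v := v) (w := f (π v))
    rw [SimpleGraph.dist_comm (u := v)] at h6
    show G.dist (f y) (f (π v)) ≤ 2 * S
    omega
  · have e : (b y).mapDomain π - (b z).mapDomain π = (b y - b z).mapDomain π :=
      ((Finsupp.lmapDomain ℝ ℝ π).map_sub (b y) (b z)).symm
    change n1 ((b y).mapDomain π - (b z).mapDomain π) ≤ ε
    rw [e]
    refine (n1_mapDomain_le π _).trans (h3 y z (fun k => ?_) fun k => ?_)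
    · exact Finset.image_subset_image (hZn y z hyz k)
    · refine Finset.image_subset_image (hZn z y ?_ k)
      rw [SimpleGraph.dist_comm]
      exact hyz

section

variable {Γ : Type u} [Group Γ] {V : Type v} [MulAction Γ V] {G : SimpleGraph V}

theorem Tame.ctl (h : Tame G)
    (hact : ∀ (g : Γ) (x y : V), G.Adj x y → G.Adj (g • x) (g • y)) (o : V)
    (F : Finset Γ) (ε : ℝ) (hε : 0 < ε) :
    ∃ (r : ℕ) (Y : Type v) (b : Γ → Y →₀ ℝ),
      (∀ g, IsProb (b g)) ∧ (∀ g, ∀ f ∈ F, n1 (b g - b (g * f)) ≤ ε) ∧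
      ∀ g h y, y ∈ (b g).support → y ∈ (b h).support →
        g⁻¹ * h ∈ {g : Γ | G.dist o (g • o) ≤ r} := by
  classical
  have hG := h.conn
  obtain ⟨C, hC, hfl⟩ := h.fl
  have hdist := dist_act (Γ := Γ) hG hact
  obtain ⟨D, hD⟩ : ∃ D : ℕ, ∀ f ∈ F, G.dist o (f • o) ≤ D := by
    obtain ⟨R, hR⟩ := (F.image fun f => G.dist o (f • o)).bddAbove
    exact ⟨R, fun f hf => hR (Finset.mem_coe.2 (Finset.mem_image_of_mem _ hf))⟩
  let st : Finset V → Finset V := fun A => A ∪ (F ×ˢ A).image (fun p => p.1 • p.2) ∪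
    (F ×ˢ A).image (fun p => p.1⁻¹ • p.2)
  let E : ℕ → Finset V := fun n => st^[n] {o}
  have hE0 : E 0 = {o} := rfl
  have hE1 : ∀ n, E (n + 1) = st (E n) := fun n => by
    simp only [E, Function.iterate_succ_apply']
  have hEs : ∀ n, E n ⊆ E (n + 1) := by
    intro n x hx
    rw [hE1]
    simp only [st, Finset.mem_union]
    exact Or.inl (Or.inl hx)
  have hEf : ∀ n, ∀ f ∈ F, ∀ x ∈ E n, f • x ∈ E (n + 1) := by
    intro n f hf x hx
    rw [hE1]
    simp only [st, Finset.mem_union]
    exact Or.inl (Or.inr (Finset.mem_image.2 ⟨(f, x), Finset.mem_product.2 ⟨hf, hx⟩, rfl⟩))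
  have hEi : ∀ n, ∀ f ∈ F, ∀ x ∈ E n, f⁻¹ • x ∈ E (n + 1) := by
    intro n f hf x hx
    rw [hE1]
    simp only [st, Finset.mem_union]
    exact Or.inr (Finset.mem_image.2 ⟨(f, x), Finset.mem_product.2 ⟨hf, hx⟩, rfl⟩)
  have hEd : ∀ n, ∀ x ∈ E n, G.dist o x ≤ D * n := by
    intro n
    induction n with
    | zero =>
      intro x hx
      rw [hE0, Finset.mem_singleton] at hx
      rw [hx, SimpleGraph.dist_self]
      omega
    | succ n ih =>
      intro x hx
      rw [hE1] at hx
      simp only [st, Finset.mem_union, Finset.mem_image, Finset.mem_product, Prod.exists] at hx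
      rw [Nat.mul_add, Nat.mul_one]
      rcases hx with (hx | ⟨f, y, ⟨hf, hy⟩, rfl⟩) | ⟨f, y, ⟨hf, hy⟩, rfl⟩
      · have := ih x hx
        omega
      · have h1 := ih y hy
        have h2 := hD f hf
        have h3 := hG.dist_triangle (u := o) (v := f • o) (w := f • y)
        rw [hdist] at h3
        omega
      · have h1 := ih y hy
        have h2 := hD f hf
        have h3 := hG.dist_triangle (u := o) (v := f⁻¹ • o) (w := f⁻¹ • y)
        have h4 := hdist f o (f⁻¹ • o)
        rw [smul_inv_smul] at h4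
        rw [hdist, ← h4, SimpleGraph.dist_comm (u := f • o)] at h3
        omega
  obtain ⟨S, b, h1, h2, h3⟩ := QC.almost_inv hG hC o (hfl o) (fun g : Γ => g • o)
    (fun g k => (E k).image fun x => g • x) D (fun k => (E k).card)
    (fun g => Finset.mem_image.2 ⟨o, by rw [hE0]; exact Finset.mem_singleton_self o, rfl⟩)
    (fun g k => Finset.image_subset_image (hEs k))
    (fun g k p hp => by
      obtain ⟨x, hx, rfl⟩ := Finset.mem_image.1 hp
      rw [hdist]
      exact hEd k x hx)
    (fun g k => Finset.card_image_le) hε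
  refine ⟨2 * S, V, b, h1, fun g f hf => h3 g (g * f) (fun k => ?_) fun k => ?_, ?_⟩
  · intro y hy
    obtain ⟨x, hx, rfl⟩ := Finset.mem_image.1 hy
    refine Finset.mem_image.2 ⟨f⁻¹ • x, hEi k f hf x hx, ?_⟩
    rw [mul_smul, smul_inv_smul]
  · intro y hy
    obtain ⟨x, hx, rfl⟩ := Finset.mem_image.1 hy
    refine Finset.mem_image.2 ⟨f • x, hEf k f hf x hx, ?_⟩
    rw [mul_smul]
  · intro g k y hg hk
    have h4 := h2 g y hg
    have h5 := h2 k y hk
    have h6 := hG.dist_triangle (u := g • o) (v := y) (w := k • o)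
    rw [SimpleGraph.dist_comm (u := y)] at h6
    have h7 := hdist g o ((g⁻¹ * k) • o)
    rw [mul_smul, smul_inv_smul] at h7
    show G.dist o ((g⁻¹ * k) • o) ≤ 2 * S
    rw [mul_smul, ← h7]
    omega

theorem Tame.isExact_iff (h : Tame G)
    (hact : ∀ (g : Γ) (x y : V), G.Adj x y → G.Adj (g • x) (g • y)) :
    IsExact Γ ↔ ∀ v : V, IsExact (MulAction.stabilizer Γ v) := by
  constructor
  · intro hΓ v
    exact Pool.Agent.H818.Bd.isExact_of_injective hΓ (Subgroup.subtype _)
      (Subgroup.subtype_injective _)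
  · intro hK
    rw [Pool.Agent.H818.Bd.isExact_iff]
    obtain ⟨o⟩ := h.conn.nonempty
    refine propertyA_of_coarse (ρ := ℕ) (fun r => {g : Γ | G.dist o (g • o) ≤ r})
      (fun _ : V => True) (fun k _ => (Pool.Agent.H818.Bd.isExact_iff _).1 (hK k))
      (h.ctl hact o) ?_
    intro r F ε hε
    obtain ⟨T, ν, h1, h2, h3⟩ := loc h.conn h.int h.hor hact o r F ε hε
    exact ⟨T, ν, fun _ _ => trivial, fun g _ => h1 g, fun g _ => h2 g,
      fun g hg f hf _ => h3 g hg f hf⟩

theorem Tame.coarselyEmbeds_iff [Countable Γ] (h : Tame G)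
    (hact : ∀ (g : Γ) (x y : V), G.Adj x y → G.Adj (g • x) (g • y)) :
    CoarselyEmbeds Γ ↔ ∀ v : V, CoarselyEmbeds (MulAction.stabilizer Γ v) := by
  constructor
  · intro hΓ v
    exact CoarselyEmbeds.of_injective hΓ (Subgroup.subtype _) (Subgroup.subtype_injective _)
  · intro hK
    obtain ⟨o⟩ := h.conn.nonempty
    refine coarselyEmbeds_of_coarse (ρ := ℕ) (fun r => {g : Γ | G.dist o (g • o) ≤ r})
      (fun _ : V => True) (fun k _ => hK k) (h.ctl hact o) ?_
    intro r F ε hε
    obtain ⟨T, ν, h1, h2, h3⟩ := loc h.conn h.int h.hor hact o r F ε hε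
    exact ⟨T, ν, fun _ _ => trivial, fun g _ => h1 g, fun g _ => h2 g,
      fun g hg f hf _ => h3 g hg f hf⟩

end

section

variable {ι : Type t} [Finite ι] {V : ι → Type v} {G : ∀ i, SimpleGraph (V i)}
  {Γ : Type u} [Group Γ] [∀ i, MulAction Γ (V i)]

theorem isExact_iff_family (h : ∀ i, Tame (G i))
    (hact : ∀ i (g : Γ) (x y : V i), (G i).Adj x y → (G i).Adj (g • x) (g • y)) :
    IsExact Γ ↔ ∀ v : ∀ i, V i, IsExact ↥(⨅ i, MulAction.stabilizer Γ (v i)) := by
  constructor
  · intro hΓ v
    exact Pool.Agent.H818.Bd.isExact_of_injective hΓ (Subgroup.subtype _)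
      (Subgroup.subtype_injective _)
  · intro hK
    have hne : ∀ i, Nonempty (V i) := fun i => (h i).conn.nonempty
    have h1 : IsExact (⊤ : Subgroup Γ) := by
      refine Pool.Agent.H818.Bd.fam (α := V) (fun i k => MulAction.stabilizer Γ k)
        (fun H => IsExact H) ?_ hK
      intro i H hH
      refine ((h i).isExact_iff (Γ := H) fun g x y => hact i g x y).2 fun k => ?_
      obtain ⟨f, hf⟩ := Pool.Agent.H818.Bd.stab_inj H k
      exact Pool.Agent.H818.Bd.isExact_of_injective (hH k) f hf
    exact Pool.Agent.H818.Bd.isExact_of_injective h1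
      (Subgroup.topEquiv (G := Γ)).symm.toMonoidHom (Subgroup.topEquiv (G := Γ)).symm.injective

theorem coarselyEmbeds_iff_family [Countable Γ] (h : ∀ i, Tame (G i))
    (hact : ∀ i (g : Γ) (x y : V i), (G i).Adj x y → (G i).Adj (g • x) (g • y)) :
    CoarselyEmbeds Γ ↔ ∀ v : ∀ i, V i, CoarselyEmbeds ↥(⨅ i, MulAction.stabilizer Γ (v i)) := by
  constructor
  · intro hΓ v
    exact CoarselyEmbeds.of_injective hΓ (Subgroup.subtype _) (Subgroup.subtype_injective _)
  · intro hK
    have hne : ∀ i, Nonempty (V i) := fun i => (h i).conn.nonempty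
    have h1 : CoarselyEmbeds (⊤ : Subgroup Γ) := by
      refine Pool.Agent.H818.Bd.fam (α := V) (fun i k => MulAction.stabilizer Γ k)
        (fun H => CoarselyEmbeds H) ?_ hK
      intro i H hH
      refine ((h i).coarselyEmbeds_iff (Γ := H) fun g x y => hact i g x y).2 fun k => ?_
      obtain ⟨f, hf⟩ := Pool.Agent.H818.Bd.stab_inj H k
      exact CoarselyEmbeds.of_injective (hH k) f hf
    exact CoarselyEmbeds.of_injective h1
      (Subgroup.topEquiv (G := Γ)).symm.toMonoidHom (Subgroup.topEquiv (G := Γ)).symm.injective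

end

end Pool.Agent.H818.FG
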